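import Mathlib
import Pool.Agent.Helper74.FB.JQPrime

/-! # Common primes with almost prime neighbours for tuples of even numbers in the primorial intervals

`S` is an admissible set of shifts with a prescribed element `h₀`. For a positive proportion of the `J`-tuples of
even numbers `m j` of the `n + 1`-st primorial interval, at every scale `Y` of the `n`-th interval, there are primes
`p = x + h₀` of the `n`-th interval such that all the `m j - p` are primes of the `n + 1`-st interval, and for `r`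
further shifts `h ∈ S` the numbers `x + h` and `m j - (x + h)` have at most two prime factors. -/

set_option autoImplicit false

namespace Pool.Agent.Results.MP_484fb8_nt.CommonPrimeWithNeighbours

open Finset

/-- the primorial `#(n)` -/
noncomputable def P (n : ℕ) : ℕ := ∏ i ∈ range n, Nat.nth Nat.Prime i

/-- `x` belongs to the `n`-th primorial interval -/
def InI (n x : ℕ) : Prop := P (n - 1) + 1 ≤ x ∧ x ≤ P n + 1

/-- `x` is `> 1` and has at most two prime factors, counted with multiplicity -/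
def AlmostPrime (x : ℕ) : Prop := 1 < x ∧ x.primeFactorsList.length ≤ 2

/-- `p` is a prime of the `n`-th and all the `m j - p` are primes of the `n + 1`-st primorial interval -/
def Rep {J : ℕ} (n : ℕ) (m : Fin J → ℕ) (p : ℕ) : Prop :=
  (p.Prime ∧ InI n p) ∧ ∀ j, p < m j ∧ (m j - p).Prime ∧ InI (n + 1) (m j - p)

/-- `a` belongs to the `n`-th interval, all the `m j - a` belong to the `n + 1`-st interval and all these numbers
have at most two prime factors -/
def AlmostRep {J : ℕ} (n : ℕ) (m : Fin J → ℕ) (a : ℕ) : Prop :=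
  (AlmostPrime a ∧ InI n a) ∧ ∀ j, a < m j ∧ AlmostPrime (m j - a) ∧ InI (n + 1) (m j - a)

/-- the set of shifts is admissible: for every prime `p` some class `v` is such that `p` divides no `v + h` -/
def Admissible (S : Finset ℕ) : Prop := ∀ p : ℕ, p.Prime → ∃ v : ℤ, ∀ h ∈ S, ¬ (p : ℤ) ∣ v + h

open Classical in
/-- the `x ∈ [Y / 16, Y]` such that `x + h₀` is a common prime and the `x + h`, `h ∈ T`, are common almost primes
for the `m j` -/
noncomputable def cluster {J : ℕ} (h₀ : ℕ) (T : Finset ℕ) (n : ℕ) (m : Fin J → ℕ) (Y : ℕ) : Finset ℕ :=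
  (Icc 1 Y).filter (fun x => Y ≤ 16 * x ∧ Rep n m (x + h₀) ∧ ∀ h ∈ T, AlmostRep n m (x + h))

/-- there are `r` shifts in `S` different from `h₀` with at least `Y / (log #(n + 1)) ^ A` clusters -/
def HasClusters {J : ℕ} (S : Finset ℕ) (h₀ A r n Y : ℕ) (m : Fin J → ℕ) : Prop :=
  ∃ T ⊆ S.erase h₀, T.card = r ∧ (Y : ℝ) / Real.log (P (n + 1)) ^ A ≤ (((cluster h₀ T n m Y).card : ℕ) : ℝ)

theorem P_succ (n : ℕ) : P (n + 1) = P n * Nat.nth Nat.Prime n := by
  unfold P
  rw [prod_range_succ]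

theorem P_pos (n : ℕ) : 1 ≤ P n := by
  unfold P
  exact Nat.one_le_iff_ne_zero.2 (prod_ne_zero_iff.2 fun i _ => (Nat.prime_nth_prime i).ne_zero)

theorem nth_le (n : ℕ) : Nat.nth Nat.Prime n ≤ P n + 1 := by
  have h1 : P n + 1 ≠ 1 := by have := P_pos n; omega
  have hq : (P n + 1).minFac.Prime := Nat.minFac_prime h1
  have h2 : ¬ (P n + 1).minFac ∣ P n := by
    intro h3
    have h4 : (P n + 1).minFac ∣ P n + 1 := Nat.minFac_dvd _
    have h5 := (Nat.dvd_add_right h3).1 h4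
    exact hq.one_lt.ne' (Nat.dvd_one.1 h5)
  refine le_trans ?_ (Nat.minFac_le (by omega))
  by_contra hlt
  push Not at hlt
  apply h2
  obtain ⟨k, hk⟩ : ∃ k, Nat.nth Nat.Prime k = (P n + 1).minFac := ⟨_, Nat.nth_count hq⟩
  rw [← hk] at hlt ⊢
  have hkn : k < n := (Nat.nth_lt_nth Nat.infinite_setOfPred_prime).1 hlt
  unfold P
  exact dvd_prod_of_mem _ (mem_range.2 hkn)

theorem P_sq (n : ℕ) : P (n + 1) ≤ 2 * P n ^ 2 := by
  rw [P_succ]
  have h1 := nth_le n
  have h2 := P_pos n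
  calc P n * Nat.nth Nat.Prime n ≤ P n * (P n + 1) := Nat.mul_le_mul_left _ h1
    _ ≤ P n * (P n + P n) := Nat.mul_le_mul_left _ (by omega)
    _ = 2 * P n ^ 2 := by ring

theorem le_P (n : ℕ) : n ≤ P n := by
  induction n with
  | zero => exact Nat.zero_le _
  | succ n ih =>
    rw [P_succ]
    have h1 := P_pos n
    have h2 := (Nat.prime_nth_prime n).two_le
    nlinarith

theorem le_nth (n : ℕ) : n ≤ Nat.nth Nat.Prime n := by
  have := Nat.add_two_le_nth_prime n
  omega

open Classical in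
/-- **Common primes with almost prime neighbours in the primorial intervals.** -/
theorem result (J r : ℕ) : ∃ K A : ℕ, ∀ S : Finset ℕ, K ≤ S.card → Admissible S → ∀ h₀ ∈ S,
    ∃ κ : ℝ, 0 < κ ∧ ∃ n₀ : ℕ, ∀ n : ℕ, n₀ ≤ n →
    ∀ Y : ℕ, 16 * (P (n - 1) + 1) ≤ Y → (∀ h ∈ S, Y + h ≤ P n + 1) →
      κ * (P (n + 1) : ℝ) ^ J ≤
        (({m ∈ Fintype.piFinset (fun _ : Fin J => Icc (P n + 1) (P (n + 1) + 1)) |
          (∀ j, Even (m j)) ∧ HasClusters S h₀ A r n Y m}.card : ℕ) : ℝ) := by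
  obtain ⟨K, A, h1⟩ := Pool.Agent.Helper74.FB.primeJQ J r
  refine ⟨K, A, fun S hS hadm h₀ hh₀ => ?_⟩
  obtain ⟨Q, hQ⟩ : ∃ Q : Fin J → Polynomial ℤ, Q = fun _ => -Polynomial.X := ⟨_, rfl⟩
  have hev : ∀ j, ∀ x : ℤ, (Q j).eval x = -x := by
    intro j x
    simp [hQ]
  have hdeg : ∀ j, (Q j).natDegree = 1 := by
    intro j
    rw [hQ]
    simp only
    rw [Polynomial.natDegree_neg, Polynomial.natDegree_X]
  obtain ⟨κ, hκ, X₀, h2⟩ := h1 Q (fun j => by rw [hdeg j]) S hS h₀ hh₀ (by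
    intro p hp
    obtain ⟨v, hv⟩ := hadm p hp
    refine ⟨v, hv, fun j => ⟨0, fun h hh hd => hv h hh ?_⟩⟩
    rw [hev, zero_add] at hd
    exact (dvd_neg).1 hd)
  -- growth
  obtain ⟨x₀, hx₀⟩ := Filter.eventually_atTop.1
    ((Real.isLittleO_pow_log_id_atTop (n := A)).bound (c := 1 / 5 ^ A) (by positivity))
  obtain ⟨n₁, hn₁⟩ := exists_nat_ge x₀
  obtain ⟨n₂, hn₂⟩ := exists_nat_ge (2 / κ)
  refine ⟨κ, hκ, X₀ + n₁ + n₂ + 130, fun n hn Y hY1 hY2 => ?_⟩
  obtain ⟨k, rfl⟩ : ∃ k, n = k + 1 := ⟨n - 1, by omega⟩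
  simp only [Nat.add_sub_cancel] at hY1
  have e1 : P (k + 1 + 1) = P (k + 1) * Nat.nth Nat.Prime (k + 1) := P_succ _
  have e2 := le_nth (k + 1)
  have e3 : k + 1 + 1 ≤ P (k + 1 + 1) := le_P _
  have e4 : k ≤ P k := le_P _
  have e5 := P_pos (k + 1)
  have e6 : 128 * P (k + 1) ≤ P (k + 1 + 1) := by
    rw [e1, mul_comm]
    exact Nat.mul_le_mul_left _ (by omega)
  have hX0 : (0 : ℝ) < P (k + 1 + 1) := by exact_mod_cast P_pos _
  have e7 : (2 : ℝ) * P (k + 1) ≤ κ * P (k + 1 + 1) := by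
    have h3 : 2 / κ ≤ (Nat.nth Nat.Prime (k + 1) : ℝ) := by
      refine hn₂.trans ?_
      exact_mod_cast (by omega : n₂ ≤ Nat.nth Nat.Prime (k + 1))
    rw [div_le_iff₀ hκ] at h3
    rw [e1]
    push_cast
    have h4 : (0 : ℝ) ≤ P (k + 1) := Nat.cast_nonneg _
    calc (2 : ℝ) * P (k + 1) ≤ (Nat.nth Nat.Prime (k + 1) * κ) * P (k + 1) :=
          mul_le_mul_of_nonneg_right h3 h4
      _ = κ * (P (k + 1) * Nat.nth Nat.Prime (k + 1)) := by ring
  have hYκ : (Y : ℝ) ≤ κ * P (k + 1 + 1) := by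
    have h3 : Y ≤ 2 * P (k + 1) := by
      have := hY2 h₀ hh₀
      omega
    have h4 : (Y : ℝ) ≤ 2 * P (k + 1) := by exact_mod_cast h3
    linarith
  have hPk : P (k + 1 + 1) ≤ P k ^ 5 := by
    have h3 := P_sq (k + 1)
    have h4 := P_sq k
    calc P (k + 1 + 1) ≤ 2 * P (k + 1) ^ 2 := h3
      _ ≤ 2 * (2 * P k ^ 2) ^ 2 := Nat.mul_le_mul_left _ (Nat.pow_le_pow_left h4 2)
      _ = 8 * P k ^ 4 := by ring
      _ ≤ P k * P k ^ 4 := Nat.mul_le_mul_right _ (by omega)
      _ = P k ^ 5 := by ring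
  have h5log : 0 < Real.log (P (k + 1 + 1)) := Real.log_pos (by exact_mod_cast (by omega : 1 < P (k + 1 + 1)))
  have hYlog : Real.log (P (k + 1 + 1)) ^ A ≤ Y := by
    have h3 : Real.log (P (k + 1 + 1)) ≤ 5 * Real.log (P k) := by
      have h4 : Real.log (P (k + 1 + 1)) ≤ Real.log ((P k : ℝ) ^ 5) :=
        Real.log_le_log hX0 (by exact_mod_cast hPk)
      rw [Real.log_pow] at h4
      exact_mod_cast h4
    have h6 : 0 ≤ Real.log (P k) := Real.log_nonneg (by exact_mod_cast P_pos _)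
    have h7 := hx₀ (P k) (by
      refine hn₁.trans ?_
      exact_mod_cast (by omega : n₁ ≤ P k))
    rw [Real.norm_of_nonneg (by positivity), id, Real.norm_of_nonneg (by positivity)] at h7
    calc Real.log (P (k + 1 + 1)) ^ A ≤ (5 * Real.log (P k)) ^ A := pow_le_pow_left₀ h5log.le h3 A
      _ = 5 ^ A * Real.log (P k) ^ A := mul_pow _ _ _
      _ ≤ 5 ^ A * (1 / 5 ^ A * P k) := mul_le_mul_of_nonneg_left h7 (by positivity)
      _ = P k := by field_simp
      _ ≤ Y := by
          have : P k ≤ Y := by omega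
          exact_mod_cast this
  refine (h2 (P (k + 1 + 1)) (by omega) Y hYlog hYκ (fun j => by rw [hdeg j, pow_one]; exact hYκ)).trans ?_
  rw [Nat.cast_le]
  apply card_le_card
  intro N hN
  obtain ⟨hN1, hN2, T, hT, hTc, hcl⟩ := mem_filter.1 hN
  have hN32 : ∀ j, 4 * P (k + 1) ≤ N j := by
    intro j
    have := hN2 j
    omega
  have hNle : ∀ j, N j ≤ P (k + 1 + 1) := fun j => (mem_Icc.1 (Fintype.mem_piFinset.1 hN1 j)).2
  have hcl2 : (Y : ℝ) / Real.log (P (k + 1 + 1)) ^ A ≤ (((cluster h₀ T (k + 1) N Y).card : ℕ) : ℝ) := by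
    refine hcl.trans ?_
    rw [Nat.cast_le]
    apply card_le_card
    intro x hx
    obtain ⟨hx1, hx2, hx3, hx4, hx5⟩ := mem_filter.1 hx
    have h7 := (mem_Icc.1 hx1).2
    unfold cluster
    refine mem_filter.2 ⟨hx1, hx2, ⟨⟨hx3, ?_, ?_⟩, fun j => ?_⟩, fun h hh => ?_⟩
    · simp only [Nat.add_sub_cancel]
      omega
    · have := hY2 h₀ hh₀
      omega
    · obtain ⟨q, hq, hq2⟩ := hx4 j
      have h8 : N j - (x + h₀) = q := by
        rw [hev] at hq2
        omega
      have h9 := hN32 j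
      have h10 := hNle j
      have h11 := hY2 h₀ hh₀
      refine ⟨by omega, ?_, ?_, ?_⟩
      · rw [h8]
        exact hq
      · simp only [Nat.add_sub_cancel]
        omega
      · omega
    · have h11 := hY2 h (mem_erase.1 (hT hh)).2
      obtain ⟨h12, h13⟩ := hx5 h hh
      refine ⟨⟨?_, ?_, ?_⟩, fun j => ?_⟩
      · obtain ⟨q, hq, hq2, hq3⟩ := h12
        have h8 : x + h = q := by
          have : ((x + h : ℕ) : ℤ) = q := by
            push_cast
            exact hq2.symm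
          exact_mod_cast this
        rw [h8]
        exact ⟨hq, hq3⟩
      · simp only [Nat.add_sub_cancel]
        omega
      · omega
      · obtain ⟨q, hq, hq2, hq3⟩ := h13 j
        have h8 : N j - (x + h) = q := by
          rw [hev] at hq2
          omega
        have h9 := hN32 j
        have h10 := hNle j
        refine ⟨by omega, ?_, ?_, ?_⟩
        · rw [h8]
          exact ⟨hq, hq3⟩
        · simp only [Nat.add_sub_cancel]
          omega
        · omega
  refine mem_filter.2 ⟨?_, ?_, T, hT, hTc, hcl2⟩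
  · rw [Fintype.mem_piFinset]
    intro j
    rw [mem_Icc]
    have := hN32 j
    have := hNle j
    constructor <;> omega
  · have hY0 : (0 : ℝ) < Y := by exact_mod_cast (by omega : 0 < Y)
    have hpos : 0 < (((cluster h₀ T (k + 1) N Y).card : ℕ) : ℝ) := lt_of_lt_of_le (by positivity) hcl2
    obtain ⟨x, hx⟩ := card_pos.1 (by exact_mod_cast hpos : 0 < (cluster h₀ T (k + 1) N Y).card)
    unfold cluster at hx
    obtain ⟨-, -, ⟨⟨hp, hpI, -⟩, hq⟩, -⟩ := mem_filter.1 hx
    intro j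
    obtain ⟨h3, h4, h5, -⟩ := hq j
    simp only [Nat.add_sub_cancel] at hpI h5
    have e8 := le_P (k + 1)
    have o1 : Odd (x + h₀) := hp.odd_of_ne_two (by omega)
    have o2 : Odd (N j - (x + h₀)) := h4.odd_of_ne_two (by omega)
    have o3 := o2.add_odd o1
    rwa [Nat.sub_add_cancel h3.le] at o3

end Pool.Agent.Results.MP_484fb8_nt.CommonPrimeWithNeighbours
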