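import Mathlib
import Pool.Agent.Helper74.FB.Dense

/-! # Representations in the primorial intervals with `p` in an arbitrary dense subset of the primes of `I_n`

`𝒬` is any set of primes of the `n`-th primorial interval with at least `d #(n) / log #(n)` elements, and `(a i, b i)`,
`i ∈ I`, are sufficiently many pairs of integers. For a positive proportion of the `J`-tuples of even numbers `m j` of
the `n + 1`-st primorial interval there are many `p ∈ 𝒬` such that all the `m j - p` are primes of the `n + 1`-st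
interval and for `r` of the pairs all the `m j - a i * p - b i` have at most two prime factors. -/

set_option autoImplicit false

namespace Pool.Agent.Results.MP_484fb8_nt.DenseSubsetsOfPrimes

open Finset

/-- the primorial `#(n)` -/
noncomputable def P (n : ℕ) : ℕ := ∏ i ∈ range n, Nat.nth Nat.Prime i

/-- `x` is a prime of the `n`-th primorial interval -/
def InP (n x : ℕ) : Prop := x.Prime ∧ P (n - 1) + 1 ≤ x ∧ x ≤ P n + 1

/-- the integer `z` is `> 1` and has at most two prime factors, counted with multiplicity -/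
def AlmostPrime (z : ℤ) : Prop := ∃ q : ℕ, 1 < q ∧ (q : ℤ) = z ∧ q.primeFactorsList.length ≤ 2

/-- the pairs `(a i, b i)`, `i ∈ I`, are distinct, `a i ≠ 0`, and for every prime `p` and every `u` prime to `p` the
numbers `a i * u + b i` miss a class modulo `p` -/
def Admissible (I : Finset ℕ) (a b : ℕ → ℤ) : Prop :=
  (∀ i ∈ I, ∀ i' ∈ I, a i = a i' → b i = b i' → i = i') ∧ (∀ i ∈ I, a i ≠ 0) ∧
    ∀ p : ℕ, p.Prime → ∀ u : ℤ, ¬ (p : ℤ) ∣ u → ∃ w : ℤ, ∀ i ∈ I, ¬ (p : ℤ) ∣ w - (a i * u + b i)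

/-- all the `m j - p` are primes of the `n + 1`-st interval, and all the `m j - a i * p - b i`, `i ∈ S`, have at most
two prime factors -/
def Good {J : ℕ} (a b : ℕ → ℤ) (S : Finset ℕ) (n : ℕ) (m : Fin J → ℕ) (p : ℕ) : Prop :=
  ∀ j, p < m j ∧ InP (n + 1) (m j - p) ∧ ∀ i ∈ S, AlmostPrime ((m j : ℤ) - a i * p - b i)

open Classical in
/-- for `r` of the pairs, different from the `i₀`-th, at least `#(n) / (log #(n + 1)) ^ A` of the `p ∈ 𝒬` are good -/
def Many {J : ℕ} (I : Finset ℕ) (i₀ : ℕ) (a b : ℕ → ℤ) (r A n : ℕ) (𝒬 : Finset ℕ) (m : Fin J → ℕ) : Prop :=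
  ∃ S ⊆ I.erase i₀, S.card = r ∧
    (P n : ℝ) / Real.log (P (n + 1)) ^ A ≤ (((𝒬.filter (fun p => Good a b S n m p)).card : ℕ) : ℝ)

theorem P_succ (n : ℕ) : P (n + 1) = P n * Nat.nth Nat.Prime n := by
  unfold P
  rw [prod_range_succ]

theorem P_pos (n : ℕ) : 1 ≤ P n := by
  unfold P
  exact Nat.one_le_iff_ne_zero.2 (prod_ne_zero_iff.2 fun i _ => (Nat.prime_nth_prime i).ne_zero)

theorem nth_le (n : ℕ) : Nat.nth Nat.Prime n ≤ P n + 1 := by
  have h1 : P n + 1 ≠ 1 := by have := P_pos n; omega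
  have hq : (P n + 1).minFac.Prime := Nat.minFac_prime h1
  have h2 : ¬ (P n + 1).minFac ∣ P n := by
    intro h3
    have h4 : (P n + 1).minFac ∣ P n + 1 := Nat.minFac_dvd _
    have h5 := (Nat.dvd_add_right h3).1 h4
    exact hq.one_lt.ne' (Nat.dvd_one.1 h5)
  refine le_trans ?_ (Nat.minFac_le (by omega))
  by_contra hlt
  push Not at hlt
  apply h2
  obtain ⟨k, hk⟩ : ∃ k, Nat.nth Nat.Prime k = (P n + 1).minFac := ⟨_, Nat.nth_count hq⟩
  rw [← hk] at hlt ⊢
  have hkn : k < n := (Nat.nth_lt_nth Nat.infinite_setOfPred_prime).1 hlt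
  unfold P
  exact dvd_prod_of_mem _ (mem_range.2 hkn)

theorem P_sq (n : ℕ) : P (n + 1) ≤ 2 * P n ^ 2 := by
  rw [P_succ]
  have h1 := nth_le n
  have h2 := P_pos n
  calc P n * Nat.nth Nat.Prime n ≤ P n * (P n + 1) := Nat.mul_le_mul_left _ h1
    _ ≤ P n * (P n + P n) := Nat.mul_le_mul_left _ (by omega)
    _ = 2 * P n ^ 2 := by ring

theorem le_P (n : ℕ) : n ≤ P n := by
  induction n with
  | zero => exact Nat.zero_le _
  | succ n ih =>
    rw [P_succ]
    have h1 := P_pos n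
    have h2 := (Nat.prime_nth_prime n).two_le
    nlinarith

theorem le_nth (n : ℕ) : n ≤ Nat.nth Nat.Prime n := by
  have := Nat.add_two_le_nth_prime n
  omega

open Classical in
/-- **Representations with `p` in an arbitrary dense subset of the primes of the primorial interval.** -/
theorem result (J r : ℕ) : ∃ K A : ℕ, ∀ (I : Finset ℕ) (a b : ℕ → ℤ), K ≤ I.card → Admissible I a b →
    ∀ i₀ ∈ I, a i₀ = 1 → b i₀ = 0 → ∀ d : ℝ, 0 < d →
    ∃ κ : ℝ, 0 < κ ∧ ∃ n₀ : ℕ, ∀ n : ℕ, n₀ ≤ n → ∀ 𝒬 : Finset ℕ, (∀ p ∈ 𝒬, InP n p) →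
      d * (P n / Real.log (P n)) ≤ (𝒬.card : ℝ) →
      κ * (P (n + 1) : ℝ) ^ J ≤
        (({m ∈ Fintype.piFinset (fun _ : Fin J => Icc (P n + 1) (P (n + 1) + 1)) |
          (∀ j, Even (m j)) ∧ Many I i₀ a b r A n 𝒬 m}.card : ℕ) : ℝ) := by
  obtain ⟨K, A, h1⟩ := Pool.Agent.Helper74.FB.denseJQ J r
  refine ⟨K, A, fun I a b hI hadm i₀ hi₀ ha₀ hb₀ d hd => ?_⟩
  obtain ⟨hdist, hne, hcov⟩ := hadm
  obtain ⟨Q, hQ⟩ : ∃ Q : Fin J → ℕ → Polynomial ℤ, Q = fun _ i =>
    -(Polynomial.C (a i) * Polynomial.X + Polynomial.C (b i)) := ⟨_, rfl⟩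
  have hev : ∀ j i, ∀ x : ℤ, (Q j i).eval x = -(a i * x + b i) := by
    intro j i x
    simp [hQ]
  have hdeg : ∀ j, ∀ i ∈ I, (Q j i).natDegree = 1 := by
    intro j i hi
    rw [hQ]
    simp only
    rw [Polynomial.natDegree_neg]
    exact Polynomial.natDegree_linear (hne i hi)
  obtain ⟨κ, hκ, X₀, h2⟩ := h1 I hI Q (fun j i hi => by rw [hdeg j i hi]) (by
      intro j i hi i' hi' heq
      have e0 : (Q j i).eval 0 = (Q j i').eval 0 := by rw [heq]
      have e1 : (Q j i).eval 1 = (Q j i').eval 1 := by rw [heq]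
      rw [hev, hev] at e0 e1
      exact hdist i hi i' hi' (by linarith) (by linarith)) (by
      intro p hp u hu j
      obtain ⟨w, hw⟩ := hcov p hp u hu
      refine ⟨w, fun i hi hd => hw i hi ?_⟩
      rw [hev] at hd
      rw [sub_eq_add_neg]
      exact hd) i₀ hi₀ (d / 2) (by positivity)
  -- growth
  obtain ⟨x₀, hx₀⟩ := Filter.eventually_atTop.1
    ((Real.isLittleO_pow_log_id_atTop (n := A)).bound (c := 1 / 3 ^ A) (by positivity))
  obtain ⟨n₁, hn₁⟩ := exists_nat_ge x₀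
  obtain ⟨n₂, hn₂⟩ := exists_nat_ge (2 / κ)
  refine ⟨κ, hκ, X₀ + n₁ + n₂ + 130, fun n hn 𝒬 h𝒬 hcard => ?_⟩
  have e1 : P (n + 1) = P n * Nat.nth Nat.Prime n := P_succ _
  have e2 := le_nth n
  have e3 : n + 1 ≤ P (n + 1) := le_P _
  have e4 : n ≤ P n := le_P _
  have e5 := P_pos n
  have e6 : 128 * P n ≤ P (n + 1) := by
    rw [e1, mul_comm]
    exact Nat.mul_le_mul_left _ (by omega)
  have hX0 : (0 : ℝ) < P (n + 1) := by exact_mod_cast P_pos _
  have hPr : (130 : ℝ) ≤ P n := by exact_mod_cast (by omega : 130 ≤ P n)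
  have e7 : (2 : ℝ) * P n ≤ κ * P (n + 1) := by
    have h3 : 2 / κ ≤ (Nat.nth Nat.Prime n : ℝ) := by
      refine hn₂.trans ?_
      exact_mod_cast (by omega : n₂ ≤ Nat.nth Nat.Prime n)
    rw [div_le_iff₀ hκ] at h3
    rw [e1]
    push_cast
    calc (2 : ℝ) * P n ≤ (Nat.nth Nat.Prime n * κ) * P n :=
          mul_le_mul_of_nonneg_right h3 (by linarith)
      _ = κ * (P n * Nat.nth Nat.Prime n) := by ring
  have hYκ : ((P n + 1 : ℕ) : ℝ) ≤ κ * P (n + 1) := by
    push_cast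
    linarith
  have hPk : P (n + 1) ≤ P n ^ 3 := by
    have h4 := P_sq n
    calc P (n + 1) ≤ 2 * P n ^ 2 := h4
      _ ≤ P n * P n ^ 2 := Nat.mul_le_mul_right _ (by omega)
      _ = P n ^ 3 := by ring
  have h5log : 0 < Real.log (P (n + 1)) := Real.log_pos (by exact_mod_cast (by omega : 1 < P (n + 1)))
  have hlogP : 0 < Real.log (P n) := Real.log_pos (by linarith)
  have hYlog : Real.log (P (n + 1)) ^ A ≤ ((P n + 1 : ℕ) : ℝ) := by
    have h3 : Real.log (P (n + 1)) ≤ 3 * Real.log (P n) := by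
      have h4 : Real.log (P (n + 1)) ≤ Real.log ((P n : ℝ) ^ 3) :=
        Real.log_le_log hX0 (by exact_mod_cast hPk)
      rw [Real.log_pow] at h4
      exact_mod_cast h4
    have h7 := hx₀ (P n) (by
      refine hn₁.trans ?_
      exact_mod_cast (by omega : n₁ ≤ P n))
    rw [Real.norm_of_nonneg (by positivity), id, Real.norm_of_nonneg (by positivity)] at h7
    calc Real.log (P (n + 1)) ^ A ≤ (3 * Real.log (P n)) ^ A := pow_le_pow_left₀ h5log.le h3 A
      _ = 3 ^ A * Real.log (P n) ^ A := mul_pow _ _ _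
      _ ≤ 3 ^ A * (1 / 3 ^ A * P n) := mul_le_mul_of_nonneg_left h7 (by positivity)
      _ = P n := by field_simp
      _ ≤ ((P n + 1 : ℕ) : ℝ) := by
          push_cast
          linarith
  have hsub : 𝒬 ⊆ (Icc 1 (P n + 1)).filter Nat.Prime := by
    intro p hp
    obtain ⟨h3, h4, h5⟩ := h𝒬 p hp
    exact mem_filter.2 ⟨mem_Icc.2 ⟨h3.one_lt.le, h5⟩, h3⟩
  have hdc : d / 2 * (((P n + 1 : ℕ) : ℝ) / Real.log ((P n + 1 : ℕ) : ℝ)) ≤ (𝒬.card : ℝ) := by
    refine le_trans ?_ hcard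
    have h3 : Real.log (P n) ≤ Real.log ((P n + 1 : ℕ) : ℝ) :=
      Real.log_le_log (by linarith) (by push_cast; linarith)
    calc d / 2 * (((P n + 1 : ℕ) : ℝ) / Real.log ((P n + 1 : ℕ) : ℝ)) ≤
          d / 2 * ((2 * P n) / Real.log (P n)) := by
            gcongr
            push_cast
            linarith
      _ = d * (P n / Real.log (P n)) := by ring
  refine (h2 (P (n + 1)) (by omega) (P n + 1) hYlog hYκ (fun j i hi => by rw [hdeg j i hi, pow_one]; exact hYκ)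
    𝒬 hsub hdc).trans ?_
  rw [Nat.cast_le]
  apply card_le_card
  intro N hN
  obtain ⟨hN1, hN2, S, hS, hSc, hcl⟩ := mem_filter.1 hN
  have hN32 : ∀ j, 4 * P n ≤ N j := by
    intro j
    have := hN2 j
    omega
  have hNle : ∀ j, N j ≤ P (n + 1) := fun j => (mem_Icc.1 (Fintype.mem_piFinset.1 hN1 j)).2
  have hcl2 : (P n : ℝ) / Real.log (P (n + 1)) ^ A ≤ (((𝒬.filter (fun p => Good a b S n N p)).card : ℕ) : ℝ) := by
    have h3 : (P n : ℝ) / Real.log (P (n + 1)) ^ A ≤ ((P n + 1 : ℕ) : ℝ) / Real.log (P (n + 1)) ^ A := by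
      apply div_le_div_of_nonneg_right _ (by positivity)
      push_cast
      linarith
    refine h3.trans (hcl.trans ?_)
    rw [Nat.cast_le]
    apply card_le_card
    intro p hp
    obtain ⟨hp1, hp2⟩ := mem_filter.1 hp
    obtain ⟨hp3, hp4, hp5⟩ := h𝒬 p hp1
    refine mem_filter.2 ⟨hp1, fun j => ?_⟩
    obtain ⟨⟨q, hq, hq2⟩, hq3⟩ := hp2 j
    rw [hev, ha₀, hb₀] at hq2
    have h6 : N j - p = q := by omega
    have h9 := hN32 j
    have h10 := hNle j
    refine ⟨by omega, ⟨?_, ?_, ?_⟩, fun i hi => ?_⟩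
    · rw [h6]
      exact hq
    · simp only [Nat.add_sub_cancel]
      omega
    · omega
    · obtain ⟨z, hz, hz2, hz3⟩ := hq3 i hi
      rw [hev] at hz2
      exact ⟨z, hz, by rw [hz2]; ring, hz3⟩
  refine mem_filter.2 ⟨?_, ?_, S, hS, hSc, hcl2⟩
  · rw [Fintype.mem_piFinset]
    intro j
    rw [mem_Icc]
    have := hN32 j
    have := hNle j
    constructor <;> omega
  · have hpos : 0 < (((𝒬.filter (fun p => Good a b S n N p)).card : ℕ) : ℝ) :=
      lt_of_lt_of_le (by positivity) hcl2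
    obtain ⟨p, hp⟩ := card_pos.1 (by exact_mod_cast hpos : 0 < (𝒬.filter (fun p => Good a b S n N p)).card)
    obtain ⟨hp1, hq⟩ := mem_filter.1 hp
    obtain ⟨hp3, hp4, hp5⟩ := h𝒬 p hp1
    have hPn1 : 2 ≤ P (n - 1) := by
      have := le_P (n - 1)
      omega
    intro j
    obtain ⟨h3, ⟨h4, h5, -⟩, -⟩ := hq j
    simp only [Nat.add_sub_cancel] at h5
    have o1 : Odd p := hp3.odd_of_ne_two (by omega)
    have o2 : Odd (N j - p) := h4.odd_of_ne_two (by omega)
    have o3 := o2.add_odd o1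
    rwa [Nat.sub_add_cancel h3.le] at o3

end Pool.Agent.Results.MP_484fb8_nt.DenseSubsetsOfPrimes
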